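import Mathlib

/-!
# Two-colourings preserved or reversed by every member of a family of permutations
-/

namespace Pool.Agent.H82.SC

variable {E : Type*} {ι : Type*}

/-- `x` and `y` are joined when some member of the family maps `x` to `y` -/
def r1 (a : ι → E → E) (e e' : E) : Prop := ∃ i, a i e = e'

/-- the signed version: member `i` changes the sign when `s i = true` -/
def r2 (a : ι → E → E) (s : ι → Bool) (x y : E × Bool) : Prop := ∃ i, (a i x.1, xor x.2 (s i)) = y

lemma r2_iff (a : ι → E → E) (s : ι → Bool) (x y : E × Bool) :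
    r2 a s x y ↔ ∃ i, a i x.1 = y.1 ∧ xor x.2 (s i) = y.2 := by
  simp [r2, Prod.ext_iff]

/-- flip of the sign -/
def flip (a : ι → E → E) (s : ι → Bool) : Quot (r2 a s) → Quot (r2 a s) :=
  Quot.map (fun x => (x.1, !x.2)) (by
    rintro ⟨e, b⟩ ⟨e', b'⟩ ⟨i, h⟩
    refine ⟨i, ?_⟩
    simp only [Prod.mk.injEq] at h ⊢
    refine ⟨h.1, ?_⟩
    rw [← h.2]
    cases b <;> cases s i <;> rfl)

/-- forget the sign -/
def proj (a : ι → E → E) (s : ι → Bool) : Quot (r2 a s) → Quot (r1 a) :=
  Quot.map Prod.fst (by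
    rintro ⟨e, b⟩ ⟨e', b'⟩ ⟨i, h⟩
    exact ⟨i, congrArg Prod.fst h⟩)

lemma flip_mk (a : ι → E → E) (s : ι → Bool) (e : E) (b : Bool) :
    flip a s (Quot.mk _ (e, b)) = Quot.mk _ (e, !b) := rfl

lemma proj_mk (a : ι → E → E) (s : ι → Bool) (e : E) (b : Bool) :
    proj a s (Quot.mk _ (e, b)) = Quot.mk _ e := rfl

lemma proj_flip (a : ι → E → E) (s : ι → Bool) (q : Quot (r2 a s)) :
    proj a s (flip a s q) = proj a s q := by
  induction q using Quot.ind with | _ x => rfl

lemma flip_flip (a : ι → E → E) (s : ι → Bool) (q : Quot (r2 a s)) :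
    flip a s (flip a s q) = q := by
  induction q using Quot.ind with
  | _ x =>
    obtain ⟨e, b⟩ := x
    simp [flip_mk]

lemma proj_surjective (a : ι → E → E) (s : ι → Bool) : Function.Surjective (proj a s) := by
  intro c
  induction c using Quot.ind with
  | _ e => exact ⟨Quot.mk _ (e, true), rfl⟩

lemma exists_of_eqvGen (a : ι → E → E) (s : ι → Bool) {e e' : E}
    (h : Relation.EqvGen (r1 a) e e') :
    ∃ c : Bool, ∀ b : Bool, (Quot.mk (r2 a s) (e, b)) = Quot.mk (r2 a s) (e', xor b c) := by
  induction h with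
  | rel x y h =>
    obtain ⟨i, hi⟩ := h
    exact ⟨s i, fun b => Quot.sound ⟨i, by simp [hi]⟩⟩
  | refl x => exact ⟨false, fun b => by simp⟩
  | symm x y _ ih =>
    obtain ⟨c, hc⟩ := ih
    refine ⟨c, fun b => ?_⟩
    have := hc (xor b c)
    rw [this]
    simp
  | trans x y z _ _ ih1 ih2 =>
    obtain ⟨c, hc⟩ := ih1
    obtain ⟨d, hd⟩ := ih2
    refine ⟨xor c d, fun b => ?_⟩
    rw [hc b, hd]
    simp

lemma eq_or_eq_flip (a : ι → E → E) (s : ι → Bool) {q q' : Quot (r2 a s)}
    (h : proj a s q = proj a s q') : q' = q ∨ q' = flip a s q := by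
  induction q using Quot.ind with
  | _ x =>
    induction q' using Quot.ind with
    | _ y =>
      obtain ⟨e, b⟩ := x
      obtain ⟨e', b'⟩ := y
      rw [proj_mk, proj_mk] at h
      obtain ⟨c, hc⟩ := exists_of_eqvGen a s (Quot.eqvGen_exact h)
      by_cases hb : b' = xor b c
      · left
        rw [hc b, hb]
      · right
        rw [flip_mk, hc (!b)]
        congr 2
        revert hb
        cases b <;> cases c <;> cases b' <;> simp

/-- the colourings reversed by the members with sign `true`, preserved by the others -/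
def Rev (a : ι → E → E) (s : ι → Bool) : Type _ :=
  {x : E → Bool // ∀ i e, x (a i e) = xor (x e) (s i)}

lemma rev_lift (a : ι → E → E) (s : ι → Bool) (x : Rev a s) :
    ∃ y : Quot (r2 a s) → Bool, (∀ e b, y (Quot.mk _ (e, b)) = xor (x.1 e) b) ∧
      ∀ q, y (flip a s q) = !(y q) := by
  refine ⟨Quot.lift (fun z => xor (x.1 z.1) z.2) ?_, fun e b => rfl, ?_⟩
  · rintro ⟨e, b⟩ ⟨e', b'⟩ ⟨i, h⟩
    simp only [Prod.mk.injEq] at h
    obtain ⟨h1, h2⟩ := h
    simp only
    rw [← h1, ← h2, x.2]
    cases x.1 e <;> cases b <;> cases s i <;> rfl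
  · intro q
    induction q using Quot.ind with
    | _ z =>
      obtain ⟨e, b⟩ := z
      show xor (x.1 e) (!b) = !(xor (x.1 e) b)
      cases x.1 e <;> cases b <;> rfl

lemma flip_ne (a : ι → E → E) (s : ι → Bool) (x : Rev a s) (q : Quot (r2 a s)) :
    flip a s q ≠ q := by
  obtain ⟨y, -, hy⟩ := rev_lift a s x
  intro h
  have := hy q
  rw [h] at this
  cases hq : y q <;> simp [hq] at this

lemma exists_rev (a : ι → E → E) (s : ι → Bool) (h : ∀ q, flip a s q ≠ q) :
    Nonempty (Rev a s) := by
  classical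
  choose t ht using proj_surjective a s
  have key : ∀ q, decide (flip a s q = t (proj a s (flip a s q))) =
      !decide (q = t (proj a s q)) := by
    intro q
    rw [proj_flip]
    rcases eq_or_eq_flip a s (ht (proj a s q)) with h1 | h1
    · have h2 : flip a s q ≠ t (proj a s q) := by
        rw [← h1]
        exact h q
      rw [decide_eq_false h2, decide_eq_true h1]
      rfl
    · have h2 : flip a s q = t (proj a s q) := by
        conv_lhs => rw [h1]
        rw [flip_flip]
      have h3 : q ≠ t (proj a s q) := by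
        rw [← h2]
        exact (h q).symm
      rw [decide_eq_true h2, decide_eq_false h3]
      rfl
  refine ⟨⟨fun e => decide (Quot.mk (r2 a s) (e, true) = t (Quot.mk _ e)), fun i e => ?_⟩⟩
  have h0 : (Quot.mk (r1 a) (a i e)) = Quot.mk (r1 a) e := (Quot.sound ⟨i, rfl⟩).symm
  have h1 : Quot.mk (r2 a s) (a i e, true) = Quot.mk (r2 a s) (e, xor true (s i)) := by
    refine (Quot.sound ⟨i, ?_⟩).symm
    cases s i <;> rfl
  have h2 := key (Quot.mk (r2 a s) (e, true))
  cases hs : s i
  · rw [hs] at h1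
    change decide (_ = t (Quot.mk (r1 a) (a i e))) = _
    rw [h0, h1]
    simp
  · rw [hs] at h1
    have h3 : Quot.mk (r2 a s) (a i e, true) = flip a s (Quot.mk (r2 a s) (e, true)) := h1
    rw [← h3] at h2
    change decide (_ = t (Quot.mk (r1 a) (a i e))) = _
    change decide (_ = t (Quot.mk (r1 a) (a i e))) = _ at h2
    rw [h2]
    simp only [Bool.xor_true]
    rfl

/-- given one such colouring, all are indexed by the colourings of the set of orbits -/
noncomputable def revEquiv (a : ι → E → E) (s : ι → Bool) (x₀ : Rev a s) :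
    Rev a s ≃ (Quot (r1 a) → Bool) where
  toFun x := Quot.lift (fun e => xor (x.1 e) (x₀.1 e)) (by
    rintro e e' ⟨i, rfl⟩
    simp only [x.2, x₀.2]
    cases x.1 e <;> cases x₀.1 e <;> cases s i <;> rfl)
  invFun z := ⟨fun e => xor (z (Quot.mk _ e)) (x₀.1 e), by
    intro i e
    have : (Quot.mk (r1 a) (a i e)) = Quot.mk (r1 a) e := (Quot.sound ⟨i, rfl⟩).symm
    simp only [this, x₀.2]
    cases z (Quot.mk _ e) <;> cases x₀.1 e <;> cases s i <;> rfl⟩
  left_inv x := by
    apply Subtype.ext
    funext e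
    show xor (xor (x.1 e) (x₀.1 e)) (x₀.1 e) = x.1 e
    simp
  right_inv z := by
    funext q
    induction q using Quot.ind with
    | _ e =>
      show xor (xor (z (Quot.mk _ e)) (x₀.1 e)) (x₀.1 e) = z (Quot.mk _ e)
      simp

variable [Finite E]

lemma card_quot_r2 (a : ι → E → E) (s : ι → Bool) :
    (∀ q, flip a s q ≠ q) ↔ Nat.card (Quot (r2 a s)) = 2 * Nat.card (Quot (r1 a)) := by
  classical
  have : Fintype (Quot (r2 a s)) := Fintype.ofFinite _
  have : Fintype (Quot (r1 a)) := Fintype.ofFinite _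
  rw [Nat.card_eq_fintype_card, Nat.card_eq_fintype_card]
  have hcard : Fintype.card (Quot (r2 a s)) =
      ∑ c : Quot (r1 a), (Finset.univ.filter fun q => proj a s q = c).card := by
    rw [← Finset.card_univ]
    exact Finset.card_eq_sum_card_fiberwise (fun _ _ => Finset.mem_coe.2 (Finset.mem_univ _))
  have hfib : ∀ q : Quot (r2 a s), (Finset.univ.filter fun q' => proj a s q' = proj a s q) =
      {q, flip a s q} := by
    intro q
    ext q'
    simp only [Finset.mem_filter, Finset.mem_univ, true_and, Finset.mem_insert,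
      Finset.mem_singleton]
    constructor
    · intro h
      exact eq_or_eq_flip a s h.symm
    · rintro (rfl | rfl)
      · rfl
      · exact proj_flip a s q
  have hle : ∀ c : Quot (r1 a), (Finset.univ.filter fun q => proj a s q = c).card ≤ 2 := by
    intro c
    obtain ⟨q, rfl⟩ := proj_surjective a s c
    rw [hfib q]
    exact Finset.card_le_two
  constructor
  · intro h
    rw [hcard]
    have : ∀ c ∈ (Finset.univ : Finset (Quot (r1 a))),
        (Finset.univ.filter fun q => proj a s q = c).card = 2 := by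
      intro c _
      obtain ⟨q, rfl⟩ := proj_surjective a s c
      rw [hfib q, Finset.card_pair (h q).symm]
    rw [Finset.sum_congr rfl this]
    simp [mul_comm]
  · intro h q hq
    have h1 : (Finset.univ.filter fun q' => proj a s q' = proj a s q).card < 2 := by
      rw [hfib q, hq]
      simp
    have h2 : ∑ c : Quot (r1 a), (Finset.univ.filter fun q => proj a s q = c).card <
        ∑ c : Quot (r1 a), 2 :=
      Finset.sum_lt_sum (fun c _ => hle c) ⟨proj a s q, Finset.mem_univ _, h1⟩
    rw [← hcard, h] at h2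
    simp [mul_comm] at h2

open Classical in
/-- the number of colourings reversed or preserved, as prescribed, by every member -/
theorem card_rev (a : ι → E → E) (s : ι → Bool) :
    Nat.card (Rev a s) = if Nat.card (Quot (r2 a s)) = 2 * Nat.card (Quot (r1 a)) then
      2 ^ Nat.card (Quot (r1 a)) else 0 := by
  split_ifs with h
  · obtain ⟨x₀⟩ := exists_rev a s ((card_quot_r2 a s).2 h)
    rw [Nat.card_congr (revEquiv a s x₀)]
    simp [Nat.card_fun]
  · have : IsEmpty (Rev a s) := ⟨fun x => h ((card_quot_r2 a s).1 (flip_ne a s x))⟩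
    exact Nat.card_of_isEmpty

/-! ### Moments -/

/-- the inner sum over `k`-element sets of divisors -/
lemma prod_one_sub_eq (D : Finset ℕ) (N : ℚ) :
    ∏ d ∈ D, (1 - N / d) =
      ∑ k ∈ Finset.range (D.card + 1), (-1) ^ k * (∑ T ∈ D.powersetCard k, ∏ d ∈ T, (1 / d : ℚ)) *
        N ^ k := by
  have h1 : ∏ d ∈ D, (1 - N / d) = ∑ T ∈ D.powerset, ∏ d ∈ T, (-(N / d)) := by
    rw [← Finset.prod_one_add]
    exact Finset.prod_congr rfl fun d _ => by ring
  rw [h1, Finset.sum_powerset]
  refine Finset.sum_congr rfl fun k _ => ?_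
  rw [Finset.mul_sum, Finset.sum_mul]
  refine Finset.sum_congr rfl fun T hT => ?_
  rw [Finset.mem_powersetCard] at hT
  have h2 : ∏ d ∈ T, (-(N / d)) = ∏ d ∈ T, ((-1) * N * (1 / d)) :=
    Finset.prod_congr rfl fun d _ => by ring
  rw [h2, Finset.prod_mul_distrib, Finset.prod_const, hT.2, mul_pow]
  ring

lemma indicator_eq (D : Finset ℕ) (hD : ∀ d ∈ D, d ≠ 0) (N : ℕ) (hN : N = 0 ∨ N ∈ D) :
    (if N = 0 then (0 : ℚ) else 1) =
      ∑ k ∈ Finset.Icc 1 D.card, (-1) ^ (k + 1) *
        (∑ T ∈ D.powersetCard k, ∏ d ∈ T, (1 / d : ℚ)) * (N : ℚ) ^ k := by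
  have h1 := prod_one_sub_eq D (N : ℚ)
  rw [Finset.sum_range_succ'] at h1
  simp only [Finset.powersetCard_zero, Finset.sum_singleton, Finset.prod_empty, pow_zero,
    mul_one] at h1
  have h2 : ∑ k ∈ Finset.Icc 1 D.card, (-1) ^ (k + 1) *
        (∑ T ∈ D.powersetCard k, ∏ d ∈ T, (1 / d : ℚ)) * (N : ℚ) ^ k =
      - ∑ k ∈ Finset.range D.card, (-1) ^ (k + 1) *
        (∑ T ∈ D.powersetCard (k + 1), ∏ d ∈ T, (1 / d : ℚ)) * (N : ℚ) ^ (k + 1) := by
    rw [← Finset.sum_neg_distrib, Finset.range_eq_Ico, Finset.sum_Ico_add' (fun k =>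
      -((-1 : ℚ) ^ k * (∑ T ∈ D.powersetCard k, ∏ d ∈ T, (1 / d : ℚ)) * (N : ℚ) ^ k)) 0 D.card 1]
    refine Finset.sum_congr ?_ fun k _ => by ring
    ext k
    simp only [Finset.mem_Icc, Finset.mem_Ico]
    omega
  rw [h2]
  rcases hN with rfl | hN
  · simp
  · have h0 : N ≠ 0 := hD N hN
    rw [if_neg h0]
    have h3 : ∏ d ∈ D, (1 - (N : ℚ) / d) = 0 := by
      refine Finset.prod_eq_zero hN ?_
      have : (N : ℚ) ≠ 0 := by exact_mod_cast h0
      field_simp
      ring
    rw [h3] at h1
    linear_combination -h1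

open Classical in
/-- counting the `x` with `A x` nonempty from the moments of `|A x|` -/
theorem card_eq_moments {X P : Type*} [Fintype X] [Fintype P] (A : X → Finset P)
    (D : Finset ℕ) (hD : ∀ d ∈ D, d ≠ 0) (hN : ∀ x, (A x).card = 0 ∨ (A x).card ∈ D) :
    (Nat.card {x // (A x).Nonempty} : ℚ) =
      ∑ k ∈ Finset.Icc 1 D.card, (-1) ^ (k + 1) *
        (∑ T ∈ D.powersetCard k, ∏ d ∈ T, (1 / d : ℚ)) *
          ∑ π : Fin k → P, (Nat.card {x // ∀ i, π i ∈ A x} : ℚ) := by
  have h1 : (Nat.card {x // (A x).Nonempty} : ℚ) =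
      ∑ x : X, (if (A x).card = 0 then (0 : ℚ) else 1) := by
    rw [Nat.card_eq_fintype_card, Fintype.card_subtype, Finset.card_filter]
    push_cast
    refine Finset.sum_congr rfl fun x _ => ?_
    by_cases h : (A x).Nonempty
    · rw [if_pos h, if_neg (by simpa using h.ne_empty)]
    · rw [if_neg h, if_pos (by simpa [Finset.not_nonempty_iff_eq_empty] using h)]
  rw [h1]
  have h2 : ∀ x ∈ (Finset.univ : Finset X), (if (A x).card = 0 then (0 : ℚ) else 1) =
      ∑ k ∈ Finset.Icc 1 D.card, (-1) ^ (k + 1) *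
        (∑ T ∈ D.powersetCard k, ∏ d ∈ T, (1 / d : ℚ)) * ((A x).card : ℚ) ^ k :=
    fun x _ => indicator_eq D hD _ (hN x)
  rw [Finset.sum_congr rfl h2, Finset.sum_comm]
  refine Finset.sum_congr rfl fun k _ => ?_
  rw [← Finset.mul_sum]
  congr 1
  have h3 : ∀ x ∈ (Finset.univ : Finset X), ((A x).card : ℚ) ^ k =
      ∑ π : Fin k → P, (if ∀ i, π i ∈ A x then (1 : ℚ) else 0) := by
    intro x _
    have h4 : (Fintype.piFinset fun _ : Fin k => A x).card = (A x).card ^ k := by
      simp
    have h5 : (Fintype.piFinset fun _ : Fin k => A x) =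
        Finset.univ.filter fun π : Fin k → P => ∀ i, π i ∈ A x := by
      ext π
      simp [Fintype.mem_piFinset]
    rw [h5, Finset.card_filter] at h4
    rw [← Nat.cast_pow, ← h4]
    push_cast
    rfl
  rw [Finset.sum_congr rfl h3, Finset.sum_comm]
  refine Finset.sum_congr rfl fun π _ => ?_
  rw [Nat.card_eq_fintype_card, Fintype.card_subtype, Finset.card_filter]
  push_cast
  rfl

omit [Finite E] in
/-- the size of the set of reversing elements is `0` or divides the order of the group -/
theorem card_reversing {P : Type*} [Group P] [Fintype P] [MulAction P E] (x : E → Bool)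
    (A : Finset P) (hA : ∀ π, π ∈ A ↔ ∀ e, x (π • e) = !(x e)) :
    A.card = 0 ∨ A.card ∈ (Fintype.card P).divisors := by
  classical
  rcases A.eq_empty_or_nonempty with h | ⟨π₀, h₀⟩
  · left
    simp [h]
  · right
    let K : Subgroup P :=
      { carrier := {τ | ∀ e, x (τ • e) = x e}
        mul_mem' := by
          intro s t hs ht e
          rw [mul_smul, hs, ht]
        one_mem' := by
          intro e
          rw [one_smul]
        inv_mem' := by
          intro s hs e
          have := hs (s⁻¹ • e)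
          rw [smul_inv_smul] at this
          exact this.symm }
    have hcard : A.card = Nat.card K := by
      rw [← Nat.card_eq_finsetCard A]
      refine Nat.card_congr ⟨fun a => ⟨π₀⁻¹ * a.1, ?_⟩, fun t => ⟨π₀ * t.1, ?_⟩, ?_, ?_⟩
      · intro e
        have h1 := (hA _).1 a.2 e
        have h2 := (hA _).1 h₀ (π₀⁻¹ • a.1 • e)
        rw [smul_inv_smul, h1] at h2
        rw [mul_smul]
        revert h2
        cases x e <;> cases x (π₀⁻¹ • a.1 • e) <;> simp
      · rw [hA]
        intro e
        rw [mul_smul, (hA _).1 h₀, t.2]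
      · intro a
        simp
      · intro t
        simp
    rw [Nat.mem_divisors]
    refine ⟨?_, Fintype.card_ne_zero⟩
    rw [hcard, ← Nat.card_eq_fintype_card]
    exact Subgroup.card_subgroup_dvd_card K

/-! ### Moebius inversion over subgroups -/

/-- counting the `x` whose stabiliser has a property `O` -/
theorem card_eq_mobius {X Γ : Type*} [Fintype X] [PartialOrder Γ] [Fintype Γ]
    [LocallyFiniteOrder Γ] [DecidableEq Γ] (O : Γ → Prop) [DecidablePred O] [DecidableLE Γ]
    (St : X → Γ) :
    (Nat.card {x // O (St x)} : ℤ) =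
      ∑ H : Γ, (∑ L with L ≤ H ∧ O L, IncidenceAlgebra.mu ℤ L H) *
        (Nat.card {x // H ≤ St x} : ℤ) := by
  classical
  have h1 : ∀ H : Γ, (Nat.card {x // H ≤ St x} : ℤ) =
      ∑ x : X, (if H ≤ St x then (1 : ℤ) else 0) := by
    intro H
    rw [Nat.card_eq_fintype_card, Fintype.card_subtype, Finset.card_filter]
    push_cast
    rfl
  have h2 : (Nat.card {x // O (St x)} : ℤ) =
      ∑ x : X, (if O (St x) then (1 : ℤ) else 0) := by
    rw [Nat.card_eq_fintype_card, Fintype.card_subtype, Finset.card_filter]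
    push_cast
    rfl
  rw [h2]
  simp_rw [h1, Finset.mul_sum]
  rw [Finset.sum_comm]
  refine Finset.sum_congr rfl fun x _ => ?_
  simp_rw [Finset.sum_mul, mul_ite, mul_one, mul_zero]
  -- swap the sums over `H` and `L`
  have h3 : ∑ H : Γ, ∑ L with L ≤ H ∧ O L, (if H ≤ St x then IncidenceAlgebra.mu ℤ L H else 0) =
      ∑ L : Γ, (if O L then (if L ≤ St x then
        ∑ H ∈ Finset.Icc L (St x), IncidenceAlgebra.mu ℤ L H else 0) else 0) := by
    simp_rw [Finset.sum_filter]
    rw [Finset.sum_comm]
    refine Finset.sum_congr rfl fun L _ => ?_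
    by_cases hO : O L
    · rw [if_pos hO]
      by_cases hL : L ≤ St x
      · rw [if_pos hL]
        have : Finset.Icc L (St x) = Finset.univ.filter fun H => L ≤ H ∧ H ≤ St x := by
          ext H
          simp
        rw [this, Finset.sum_filter]
        refine Finset.sum_congr rfl fun H _ => ?_
        by_cases h4 : L ≤ H <;> by_cases h5 : H ≤ St x <;> simp [h4, h5, hO]
      · rw [if_neg hL]
        refine Finset.sum_eq_zero fun H _ => ?_
        by_cases h4 : L ≤ H
        · have h5 : ¬ H ≤ St x := fun h => hL (h4.trans h)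
          simp [h5]
        · simp [h4]
    · rw [if_neg hO]
      refine Finset.sum_eq_zero fun H _ => ?_
      simp [hO]
  rw [h3]
  simp_rw [IncidenceAlgebra.sum_Icc_mu_right]
  have h4 : ∀ L ∈ (Finset.univ : Finset Γ), (if O L then (if L ≤ St x then
      (if L = St x then (1 : ℤ) else 0) else 0) else 0) =
      if L = St x then (if O (St x) then 1 else 0) else 0 := by
    intro L _
    by_cases h : L = St x
    · subst h
      simp
    · simp [h]
  rw [Finset.sum_congr rfl h4]
  simp

end Pool.Agent.H82.SC
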